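import Pool.Agent.Helper32.OIP.Goals

/-! # Packet OIP-O8a (MP_fc0446_an): `GhA` is measurable and local -/

set_option autoImplicit false

namespace Pool.Agent.Helper62.OIP

open MeasureTheory Pool.Agent.Helper32.OIP Pool.Agent.Helper58.Orb

section

variable {A B : Type} [Group A] [Group B] {S : Set A} {S' : Set B} {D L : Type}

theorem tg_eq_iff (T : TreeData A S D) (T' : TreeData B S' L) (e₀ : D ≃ L) (t : A → Bern A → B)
    (x : Bern A) (g : D ≃ L) :
    tg T T' e₀ t x = g ↔ (∀ s, T'.dir (g s) = t (T.dir s) x) ∨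
      ((¬ ∃ f : D ≃ L, ∀ s, T'.dir (f s) = t (T.dir s) x) ∧ g = e₀) := by
  unfold tg
  by_cases h : ∃ f : D ≃ L, ∀ s, T'.dir (f s) = t (T.dir s) x
  · rw [dif_pos h]
    constructor
    · rintro rfl
      exact Or.inl h.choose_spec
    · rintro (h1 | h1)
      · ext s
        apply T'.inj
        rw [h1, h.choose_spec s]
      · exact absurd h h1.1
  · rw [dif_neg h]
    constructor
    · rintro rfl
      exact Or.inr ⟨h, rfl⟩
    · rintro (h1 | h1)
      · exact absurd ⟨g, h1⟩ h
      · exact h1.2.symm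

theorem tg_congr (T : TreeData A S D) (T' : TreeData B S' L) (e₀ : D ≃ L) (t : A → Bern A → B)
    {x y : Bern A} (h : ∀ s, t (T.dir s) x = t (T.dir s) y) :
    tg T T' e₀ t x = tg T T' e₀ t y := by
  rw [tg_eq_iff]
  have h1 := (tg_eq_iff T T' e₀ t y (tg T T' e₀ t y)).1 rfl
  simpa only [h] using h1

theorem meas_tg [Fintype D] [Fintype L] (T : TreeData A S D) (T' : TreeData B S' L) (e₀ : D ≃ L)
    (t : A → Bern A → B) (ht : ∀ s ∈ S, ∀ h : B, MeasurableSet {x | t s x = h}) (g : D ≃ L) :
    MeasurableSet {x | tg T T' e₀ t x = g} := by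
  classical
  have h1 : ∀ f : D ≃ L, MeasurableSet {x | ∀ s, T'.dir (f s) = t (T.dir s) x} := by
    intro f
    have : {x | ∀ s, T'.dir (f s) = t (T.dir s) x} = ⋂ s, {x | t (T.dir s) x = T'.dir (f s)} := by
      ext x
      simp only [Set.mem_ofPred_eq, Set.mem_iInter]
      exact forall_congr' fun s => eq_comm
    rw [this]
    exact MeasurableSet.iInter fun s => ht _ (T.dir_mem s) _
  have h2 : MeasurableSet {x | ∃ f : D ≃ L, ∀ s, T'.dir (f s) = t (T.dir s) x} := by
    have : {x | ∃ f : D ≃ L, ∀ s, T'.dir (f s) = t (T.dir s) x} =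
        ⋃ f : D ≃ L, {x | ∀ s, T'.dir (f s) = t (T.dir s) x} := by
      ext x
      simp only [Set.mem_ofPred_eq, Set.mem_iUnion]
    rw [this]
    exact MeasurableSet.iUnion fun f => h1 f
  have h3 : {x | tg T T' e₀ t x = g} = {x | ∀ s, T'.dir (g s) = t (T.dir s) x} ∪
      ({x | ∃ f : D ≃ L, ∀ s, T'.dir (f s) = t (T.dir s) x}ᶜ ∩ {_x | g = e₀}) := by
    ext x
    rw [Set.mem_ofPred_eq, tg_eq_iff]
    rfl
  rw [h3]
  exact (h1 g).union (h2.compl.inter (MeasurableSet.const _))

theorem meas_shift (p : A) : Measurable (shift p : Bern A → Bern A) :=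
  measurable_pi_iff.2 fun _ => measurable_pi_apply _

theorem meas_ppos [Countable A] [Fintype D] [Fintype L] (T : TreeData A S D)
    (T' : TreeData B S' L) (e₀ : D ≃ L) (f : Bern A → unitInterval) (t : A → Bern A → B)
    (ht : ∀ s ∈ S, ∀ h : B, MeasurableSet {x | t s x = h}) (ls : List L) :
    ∀ a : A, MeasurableSet {x | ppos T (dg T T' e₀ f t x) ls = a} := by
  classical
  induction ls with
  | nil =>
    intro a
    change MeasurableSet {_x : Bern A | (1 : A) = a}
    exact MeasurableSet.const _
  | cons l ls ih =>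
    intro a
    have : {x | ppos T (dg T T' e₀ f t x) (l :: ls) = a} =
        ⋃ p : A, ⋃ g : D ≃ L, ({x | ppos T (dg T T' e₀ f t x) ls = p} ∩
          (shift p ⁻¹' {x | tg T T' e₀ t x = g})) ∩ {_x | T.dir (g.symm l) * p = a} := by
      ext x
      simp only [Set.mem_ofPred_eq, Set.mem_iUnion, Set.mem_inter_iff, Set.mem_preimage]
      constructor
      · intro h
        exact ⟨_, _, ⟨rfl, rfl⟩, h⟩
      · rintro ⟨p, g, ⟨rfl, rfl⟩, h⟩
        exact h
    rw [this]
    exact MeasurableSet.iUnion fun p => MeasurableSet.iUnion fun g =>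
      ((ih p).inter (meas_shift p (meas_tg T T' e₀ t ht g))).inter (MeasurableSet.const _)

theorem meas_Yd [Countable A] [Fintype D] [Fintype L] (T : TreeData A S D)
    (T' : TreeData B S' L) (e₀ : D ≃ L) (m : ℕ) (f : Bern A → unitInterval) (t : A → Bern A → B)
    (hf : Measurable f) (ht : ∀ s ∈ S, ∀ h : B, MeasurableSet {x | t s x = h}) :
    Measurable (fun x : Bern A => Yd T T' m (dg T T' e₀ f t x)) := by
  classical
  refine measurable_pi_iff.2 fun b => ?_
  by_cases hb : T'.len b ≤ m
  · have h1 : (fun x : Bern A => Yd T T' m (dg T T' e₀ f t x) b) =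
        fun x => f (shift (ppos T (dg T T' e₀ f t x) (lsOf T' b)) x) := by
      funext x
      unfold Yd
      rw [if_pos hb]
      rfl
    rw [h1]
    intro V hV
    have h2 : (fun x : Bern A => f (shift (ppos T (dg T T' e₀ f t x) (lsOf T' b)) x)) ⁻¹' V =
        ⋃ p : A, {x | ppos T (dg T T' e₀ f t x) (lsOf T' b) = p} ∩
          ((fun x => f (shift p x)) ⁻¹' V) := by
      ext x
      simp only [Set.mem_preimage, Set.mem_iUnion, Set.mem_inter_iff, Set.mem_ofPred_eq]
      constructor
      · intro h
        exact ⟨_, rfl, h⟩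
      · rintro ⟨p, rfl, h⟩
        exact h
    rw [h2]
    exact MeasurableSet.iUnion fun p => (meas_ppos T T' e₀ f t ht _ p).inter
      ((hf.comp (meas_shift p)) hV)
  · have h1 : (fun x : Bern A => Yd T T' m (dg T T' e₀ f t x) b) = fun _ => 0 := by
      funext x
      unfold Yd
      rw [if_neg hb]
    rw [h1]
    exact measurable_const

theorem lsOf_length (T' : TreeData B S' L) (b : B) : (lsOf T' b).length ≤ T'.len b := by
  unfold lsOf
  split_ifs with h
  · exact h.choose_spec.2.le
  · exact Nat.zero_le _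

end

theorem o8a : GoalO8a := by
  intro hR A B _ _ _ _ S S' D L _ _ T T' e₀ α m hα k f t hf ht hfk htk
  classical
  obtain ⟨-, hinv, hmul⟩ := hR A S D T
  -- measurability
  have hfs : Measurable (fs : (A → E0) → Bern A) :=
    measurable_pi_iff.2 fun a => measurable_fst.comp (measurable_pi_apply a)
  constructor
  · have h1 : MeasurableSet {x : Bern A | (tg T T' e₀ t x).symm ≠
        α (Yd T T' m (dg T T' e₀ f t x))} := by
      have h2 : {x : Bern A | (tg T T' e₀ t x).symm ≠ α (Yd T T' m (dg T T' e₀ f t x))} =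
          (⋃ g : D ≃ L, {x | tg T T' e₀ t x = g} ∩
            ((fun x : Bern A => Yd T T' m (dg T T' e₀ f t x)) ⁻¹' {y | α y = g.symm}))ᶜ := by
        ext x
        simp only [Set.mem_ofPred_eq, Set.mem_compl_iff, Set.mem_iUnion, Set.mem_inter_iff,
          Set.mem_preimage, not_exists, not_and]
        constructor
        · rintro h g rfl h3
          exact h h3.symm
        · intro h h3
          exact h _ rfl h3.symm
      rw [h2]
      exact (MeasurableSet.iUnion fun g => (meas_tg T T' e₀ t ht g).inter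
        (meas_Yd T T' e₀ m f t hf ht (hα _))).compl
    have h3 : MeasurableSet {z : A → E0 | ∃ a ∈ bl T m, (z a).2.1 = true} := by
      have h4 : {z : A → E0 | ∃ a ∈ bl T m, (z a).2.1 = true} =
          ⋃ a ∈ bl T m, (fun z : A → E0 => (z a).2.1) ⁻¹' {true} := by
        ext z
        simp only [Set.mem_ofPred_eq, Set.mem_iUnion, Set.mem_preimage, Set.mem_singleton_iff,
          exists_prop]
      rw [h4]
      refine MeasurableSet.biUnion (Set.to_countable _) fun a _ => ?_
      exact (measurable_fst.comp (measurable_snd.comp (measurable_pi_apply a)))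
        (MeasurableSet.singleton _)
    have h5 : GhA T T' e₀ α m f t = (fs ⁻¹' {x : Bern A | (tg T T' e₀ t x).symm ≠
        α (Yd T T' m (dg T T' e₀ f t x))}) ∪ {z : A → E0 | ∃ a ∈ bl T m, (z a).2.1 = true} := by
      ext z
      rfl
    rw [h5]
    exact (hfs h1).union h3
  · intro z w hzw
    -- agreement of the shifted labellings
    have hsh : ∀ p : A, T.len p ≤ m → ∀ g : A, wordLen S g ≤ (k : ℕ∞) →
        shift p (fs z) g = shift p (fs w) g := by
      intro p hp g hg
      rw [T.wordLen_eq] at hg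
      have hg' : T.len g ≤ k := by exact_mod_cast hg
      have h1 : T.len (p⁻¹ * g) ≤ k + m := by
        have := hmul p⁻¹ g
        rw [hinv] at this
        omega
      change (z (p⁻¹ * g)).1 = (w (p⁻¹ * g)).1
      rw [hzw _ h1]
    have htg : ∀ p : A, T.len p ≤ m →
        tg T T' e₀ t (shift p (fs z)) = tg T T' e₀ t (shift p (fs w)) := by
      intro p hp
      refine tg_congr T T' e₀ t fun s => ?_
      exact htk _ (T.dir_mem s) _ _ (hsh p hp)
    have hpp : ∀ ls : List L, ls.length ≤ m →
        ppos T (dg T T' e₀ f t (fs z)) ls = ppos T (dg T T' e₀ f t (fs w)) ls ∧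
        T.len (ppos T (dg T T' e₀ f t (fs z)) ls) ≤ ls.length := by
      intro ls
      induction ls with
      | nil =>
        intro _
        exact ⟨rfl, T.len_one.le⟩
      | cons l ls ih =>
        intro hl
        rw [List.length_cons] at hl
        obtain ⟨h1, h2⟩ := ih (by omega)
        have h3 : (dg T T' e₀ f t (fs z) (ppos T (dg T T' e₀ f t (fs z)) ls)).2 =
            (dg T T' e₀ f t (fs w) (ppos T (dg T T' e₀ f t (fs w)) ls)).2 := by
          rw [← h1]
          exact htg _ (by omega)
        constructor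
        · change T.dir ((dg T T' e₀ f t (fs z) (ppos T (dg T T' e₀ f t (fs z)) ls)).2.symm l) *
              ppos T (dg T T' e₀ f t (fs z)) ls = T.dir ((dg T T' e₀ f t (fs w)
                (ppos T (dg T T' e₀ f t (fs w)) ls)).2.symm l) * ppos T (dg T T' e₀ f t (fs w)) ls
          rw [h3, h1]
        · change T.len (T.dir ((dg T T' e₀ f t (fs z) (ppos T (dg T T' e₀ f t (fs z)) ls)).2.symm l)
            * ppos T (dg T T' e₀ f t (fs z)) ls) ≤ _
          have := T.len_mul_le ((dg T T' e₀ f t (fs z)
            (ppos T (dg T T' e₀ f t (fs z)) ls)).2.symm l) (ppos T (dg T T' e₀ f t (fs z)) ls)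
          rw [List.length_cons]
          omega
    have hY : Yd T T' m (dg T T' e₀ f t (fs z)) = Yd T T' m (dg T T' e₀ f t (fs w)) := by
      funext b
      unfold Yd
      by_cases hb : T'.len b ≤ m
      · rw [if_pos hb, if_pos hb]
        have hl := (lsOf_length T' b).trans hb
        obtain ⟨h1, h2⟩ := hpp _ hl
        rw [← h1]
        exact hfk _ _ (hsh _ (h2.trans hl))
      · rw [if_neg hb, if_neg hb]
    have h1 : tg T T' e₀ t (fs z) = tg T T' e₀ t (fs w) := by
      have h2 := htg 1 (by rw [T.len_one]; exact Nat.zero_le _)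
      have h3 : ∀ x : Bern A, shift 1 x = x := by
        intro x
        funext g
        simp [shift]
      rwa [h3, h3] at h2
    have h2 : (∃ a ∈ bl T m, (z a).2.1 = true) ↔ (∃ a ∈ bl T m, (w a).2.1 = true) := by
      refine exists_congr fun a => and_congr_right fun ha => ?_
      have h3 : T.len a ≤ m := ha
      rw [hzw a (by change T.len a ≤ k + m; omega)]
    apply propext
    change ((tg T T' e₀ t (fs z)).symm ≠ α (Yd T T' m (dg T T' e₀ f t (fs z))) ∨ _) ↔
      ((tg T T' e₀ t (fs w)).symm ≠ α (Yd T T' m (dg T T' e₀ f t (fs w))) ∨ _)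
    rw [h1, hY, h2]

end Pool.Agent.Helper62.OIP
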